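import Pool.Agent.Helper50.DS.Defs

/-!
# Project DS (MP_743798_lc), modules I4: extending stems, adding promises

`GS_congr`, `UL_congr`, `AL_mono`, `AL_of_Al`, `exists_ext`, `exists_pr`, `exists_length`,
`exists_lengths`.
-/

set_option autoImplicit false
set_option linter.unusedSectionVars false

namespace Pool.Agent.Helper50.DS

open Pool.Agent.Helper33.HM

theorem GS_congr {σ τ : List ℕ} (h : σ <+: τ) {m : ℕ} (hm : 2 * m < σ.length) :
    GS σ m = GS τ m := by
  unfold GS
  refine Finset.sum_congr rfl fun i hi => ?_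
  have hi' : i < σ.length := by
    have := Finset.mem_range.1 hi
    omega
  have hi2 : i < τ.length := hi'.trans_le h.length_le
  rw [List.getD_eq_getElem _ _ hi', List.getD_eq_getElem _ _ hi2, h.getElem hi']

theorem h4_N_take (a : Node) (i : ℕ) : N (a.take i) ≤ N a := by
  unfold N
  have h1 : (a.take i).length ≤ a.length := (List.take_prefix i a).length_le
  have h2 : (a.take i).sum ≤ a.sum := by
    conv_rhs => rw [← List.take_append_drop i a]
    rw [List.sum_append]
    exact Nat.le_add_right _ _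
  omega

theorem h4_N_prefix {a b : Node} (h : a <+: b) : N a ≤ N b := by
  obtain ⟨c, rfl⟩ := h
  unfold N
  rw [List.length_append, List.sum_append]
  omega

theorem UL_congr {σ τ : List ℕ} (h : σ <+: τ) {a : Node} (ha : 2 * N a < σ.length) :
    UL (GS σ) a ↔ UL (GS τ) a := by
  unfold UL
  refine forall_congr' fun i => forall_congr' fun hi => ?_
  have := h4_N_take a i
  rw [GS_congr h (m := N (a.take i)) (by omega)]

section Iter

variable {T : Type} [Preorder T] (e : Cod T)

theorem AL_mono {j : Ordinal.{0}} {ξ : Ordinal.{0}} {n v : ℕ} {p q : Cnd T}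
    (h : AL e j (LEi e j) ξ n v p) (hq : LEi e j q p) : AL e j (LEi e j) ξ n v q :=
  fun s hs => h s (LEi_trans e j hs hq)

theorem h4_prefix {j k : Ordinal.{0}} (hk : k < j) {p q : Cnd T} (h : LEi e j q p) :
    p.st k <+: q.st k := (((LEi_iff e j q p).1 h).2 k hk).1

theorem h4_Al_mono {j : Ordinal.{0}} {ξ : Ordinal.{0}} {n v : ℕ} {p q : Cnd T}
    (h : Al e j (LEi e j) ξ n v p) (hq : LEi e j q p) : Al e j (LEi e j) ξ n v q := by
  unfold Al at h ⊢
  by_cases hn : n % 2 = 0
  · rw [if_pos hn] at h ⊢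
    intro hT
    obtain ⟨k, hk, i, c, hc, hR⟩ := h hT
    exact ⟨k, hk, i, c, hc, LEi_trans e j hq hR⟩
  · rw [if_neg hn] at h ⊢
    rcases h with h | ⟨a, h1, ⟨l, hl, hla⟩, ⟨i, c, hc, hR⟩, h4⟩
    · exact Or.inl h
    · refine Or.inr ⟨a, h1, ⟨l, hl, hla⟩, ⟨i, c, hc, LEi_trans e j hq hR⟩, fun hξ => ?_⟩
      obtain ⟨h5, h6⟩ := h4 hξ
      have hpre := h4_prefix e hξ hq
      have hx : 2 * N (e j).2 < (p.st ξ).length := by
        have := h4_N_prefix ((List.prefix_append (e j).2 [l]).trans hla)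
        omega
      refine ⟨h5.trans_le hpre.length_le, fun hU => ?_⟩
      rw [← UL_congr hpre hx] at hU
      rw [← UL_congr hpre h5]
      exact h6 hU

theorem AL_of_Al {j : Ordinal.{0}} {ξ : Ordinal.{0}} {n v : ℕ} {p : Cnd T}
    (h : Al e j (LEi e j) ξ n v p) : AL e j (LEi e j) ξ n v p :=
  fun q hq => ⟨q, LEi_refl e j q, h4_Al_mono e h hq⟩

theorem h4_LEi_of {i : Ordinal.{0}} {a b : Cnd T} (ht : a.t ≤ b.t)
    (hst : ∀ k < i, a.st k = b.st k) (hpr : ∀ k < i, ∀ ξ, (k, ξ) ∈ b.pr → (k, ξ) ∈ a.pr) :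
    LEi e i a b := by
  rw [LEi_iff]
  refine ⟨ht, fun k hk => ⟨?_, hpr k hk, fun n hn hn' => ?_⟩⟩
  · rw [hst k hk]
  · rw [hst k hk] at hn
    exact absurd hn (not_lt.2 hn')

/-- The one-step extension. -/
theorem exists_ext {j : Ordinal.{0}} {p q : P e} (hq : LEi e j q p) (v : ℕ)
    (h : ∀ ξ, (j, ξ) ∈ p.pr → AL e j (LEi e j) ξ (p.st j).length v q) :
    ∃ p' : P e, p' ≤ p ∧ p'.st j = p.st j ++ [v] ∧ LEi e j p' q := by
  classical
  let p' : P e :=
    { t := q.t
      st := fun k => if k < j then q.st k else if k = j then p.st j ++ [v] else p.st k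
      fin := by
        refine ((q.fin.union p.fin).union (Set.finite_singleton j)).subset fun k hk => ?_
        simp only [Set.mem_ofPred_eq] at hk
        by_cases h1 : k < j
        · rw [if_pos h1] at hk
          exact Or.inl (Or.inl hk)
        · rw [if_neg h1] at hk
          by_cases h2 : k = j
          · exact Or.inr h2
          · rw [if_neg h2] at hk
            exact Or.inl (Or.inr hk)
      pr := (q.pr.filter fun x => x.1 < j) ∪ p.pr.filter fun x => j ≤ x.1 }
  have hst1 : ∀ k, k < j → p'.st k = q.st k := fun k hk => if_pos hk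
  have hst2 : p'.st j = p.st j ++ [v] := by
    show (if j < j then q.st j else if j = j then p.st j ++ [v] else p.st j) = _
    rw [if_neg (lt_irrefl j), if_pos rfl]
  have hst3 : ∀ k, j < k → p'.st k = p.st k := fun k hk => by
    show (if k < j then q.st k else if k = j then p.st j ++ [v] else p.st k) = _
    rw [if_neg (not_lt.2 hk.le), if_neg hk.ne']
  have hpr1 : ∀ k ξ, k < j → (k, ξ) ∈ q.pr → (k, ξ) ∈ p'.pr := fun k ξ hk hm =>
    Finset.mem_union_left _ (Finset.mem_filter.2 ⟨hm, hk⟩)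
  have hpr2 : ∀ k ξ, j ≤ k → (k, ξ) ∈ p.pr → (k, ξ) ∈ p'.pr := fun k ξ hk hm =>
    Finset.mem_union_right _ (Finset.mem_filter.2 ⟨hm, hk⟩)
  have hL : ∀ i ≤ j, LEi e i p' q := fun i hi =>
    h4_LEi_of e le_rfl (fun k hk => hst1 k (hk.trans_le hi))
      fun k hk ξ hm => hpr1 k ξ (hk.trans_le hi) hm
  have hq' := (LEi_iff e j q p).1 hq
  refine ⟨p', ?_, hst2, hL j le_rfl⟩
  rw [le_iff]
  refine ⟨hq'.1, fun k => ?_⟩
  rcases lt_trichotomy k j with hk | rfl | hk
  · obtain ⟨a1, a2, a3⟩ := hq'.2 k hk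
    refine ⟨?_, fun ξ hm => hpr1 k ξ hk (a2 ξ hm), fun n hn hn' ξ hm => ?_⟩
    · rw [hst1 k hk]
      exact a1
    · have hn2 : n < (q.st k).length := by rwa [hst1 k hk] at hn
      have e1 : (p'.st k)[n] = (q.st k)[n] := by
        simp only [hst1 k hk]
      rw [e1]
      exact AL_mono e (a3 n hn2 hn' ξ hm) (hL k hk.le)
  · refine ⟨?_, fun ξ hm => hpr2 k ξ le_rfl hm, fun n hn hn' ξ hm => ?_⟩
    · rw [hst2]
      exact List.prefix_append _ _
    · have hlen : (p'.st k).length = (p.st k).length + 1 := by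
        rw [hst2, List.length_append, List.length_singleton]
      have hnn : n = (p.st k).length := by omega
      subst hnn
      have e1 : (p'.st k)[(p.st k).length] = v := by
        simp only [hst2, List.getElem_append_right (le_refl _), Nat.sub_self,
          List.getElem_cons_zero]
      rw [e1]
      exact AL_mono e (h ξ hm) (hL k le_rfl)
  · refine ⟨?_, fun ξ hm => hpr2 k ξ hk.le hm, fun n hn hn' ξ hm => ?_⟩
    · rw [hst3 k hk]
    · rw [hst3 k hk] at hn
      exact absurd hn (not_lt.2 hn')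

/-- Adding a promise. -/
theorem exists_pr (p : P e) (j ξ : Ordinal.{0}) :
    ∃ p' : P e, p' ≤ p ∧ (j, ξ) ∈ p'.pr ∧ p'.st j = p.st j := by
  classical
  let p' : P e :=
    { t := p.t
      st := p.st
      fin := p.fin
      pr := insert (j, ξ) p.pr }
  refine ⟨p', fun i => ?_, Finset.mem_insert_self _ _, rfl⟩
  exact h4_LEi_of e le_rfl (fun _ _ => rfl) fun k _ η hm => Finset.mem_insert_of_mem hm

theorem h4_even {j : Ordinal.{0}} {n : ℕ} (hn : n % 2 = 0) (Ξ : Finset Ordinal.{0}) (p : Cnd T) :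
    ∃ q : Cnd T, LEi e j q p ∧ ∃ v0 : ℕ, ∀ v, v0 ≤ v → ∀ ξ ∈ Ξ,
      AL e j (LEi e j) ξ n v q := by
  classical
  induction Ξ using Finset.induction_on with
  | empty => exact ⟨p, LEi_refl e j p, 0, fun v _ ξ hξ => absurd hξ (Finset.notMem_empty ξ)⟩
  | insert ξ Ξ' _ ih =>
    obtain ⟨q, hqp, v0, hv0⟩ := ih
    by_cases hT : ∀ (m : ℕ) (q : Cnd T), ∃ r', LEi e j r' q ∧ ∃ k i c,
        (e ξ).1 (Nat.pair m k) i = some c ∧ LEi e j r' c
    · obtain ⟨r, hrq, k, i, c, hc, hrc⟩ := hT (n / 2) q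
      refine ⟨r, LEi_trans e j hrq hqp, max v0 k, fun v hv η hη => ?_⟩
      rcases Finset.mem_insert.1 hη with rfl | hη
      · refine AL_of_Al e ?_
        unfold Al
        rw [if_pos hn]
        exact fun _ => ⟨k, (le_max_right _ _).trans hv, i, c, hc, hrc⟩
      · exact AL_mono e (hv0 v ((le_max_left _ _).trans hv) η hη) hrq
    · refine ⟨q, hqp, v0, fun v hv η hη => ?_⟩
      rcases Finset.mem_insert.1 hη with rfl | hη
      · refine AL_of_Al e ?_
        unfold Al
        rw [if_pos hn]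
        exact fun h => absurd h hT
      · exact hv0 v hv η hη

theorem h4_step (p : P e) (j : Ordinal.{0}) :
    ∃ p' : P e, p' ≤ p ∧ (p'.st j).length = (p.st j).length + 1 := by
  classical
  by_cases hn : (p.st j).length % 2 = 0
  · obtain ⟨q, hqp, v0, hv0⟩ := h4_even e (j := j) hn (p.pr.image Prod.snd) p
    obtain ⟨p', h1, h2, _⟩ := exists_ext e (j := j) (p := p) (q := q) hqp v0 fun ξ hξ =>
      hv0 v0 le_rfl ξ (Finset.mem_image.2 ⟨(j, ξ), hξ, rfl⟩)
    exact ⟨p', h1, by rw [h2, List.length_append, List.length_singleton]⟩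
  · obtain ⟨p', h1, h2, _⟩ := exists_ext e (j := j) (p := p) (q := p) (LEi_refl e j p) 0
      fun ξ _ => AL_of_Al e (by
        unfold Al
        rw [if_neg hn]
        exact Or.inl rfl)
    exact ⟨p', h1, by rw [h2, List.length_append, List.length_singleton]⟩

theorem exists_length (p : P e) (j : Ordinal.{0}) (L : ℕ) (h : (p.st j).length ≤ L) :
    ∃ p' : P e, p' ≤ p ∧ (p'.st j).length = L := by
  induction L, h using Nat.le_induction with
  | base => exact ⟨p, le_rfl, rfl⟩
  | succ L _ ih =>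
    obtain ⟨p1, h1, h2⟩ := ih
    obtain ⟨p2, h3, h4⟩ := h4_step e p1 j
    exact ⟨p2, h3.trans h1, by rw [h4, h2]⟩

theorem h4_prefix' {p q : P e} (h : q ≤ p) (j : Ordinal.{0}) : p.st j <+: q.st j :=
  ((le_iff e).1 h).2 j |>.1

/-- The stem at `j` becomes long, for finitely many `j` at once. -/
theorem exists_lengths (p : P e) (D : Finset Ordinal.{0}) (L : ℕ) :
    ∃ p' : P e, p' ≤ p ∧ ∀ j ∈ D, L ≤ (p'.st j).length := by
  classical
  induction D using Finset.induction_on with
  | empty => exact ⟨p, le_rfl, fun j hj => absurd hj (Finset.notMem_empty j)⟩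
  | insert j D _ ih =>
    obtain ⟨p1, h1, h2⟩ := ih
    obtain ⟨p2, h3, h4⟩ := exists_length e p1 j (max L (p1.st j).length) (le_max_right _ _)
    refine ⟨p2, h3.trans h1, fun k hk => ?_⟩
    rcases Finset.mem_insert.1 hk with rfl | hk
    · rw [h4]
      exact le_max_left _ _
    · exact (h2 k hk).trans (h4_prefix' e h3 k).length_le

end Iter

end Pool.Agent.Helper50.DS
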